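import Pool.Agent.Helper47K9.SH.K9

/-!
# Nearest neighbour stirring: macroscopic cycles at times of order `L ^ (4 / (d + 2)) log L`

`stirExp J t F` (Pool.Agent.Y998.ST.Defs) is the expectation of `F` under random stirring with rates
`J` at time `t`, started at the identity, `nnRate d L` are the rates `1` for the nearest neighbours
of the torus `(ℤ / L)^d`, `cycleLen g v` is the length of the cycle of `g` through `v`, and
`pf g i` (Pool.Agent.R134.PB.Stm4) is the `i`-th largest cycle length of `g` (`i = 0` for the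
largest) divided by the number of points.
-/

set_option autoImplicit false

namespace Pool.Agent.Results.MP_6c3d62_pr.MacroscopicBelowMixing

open Finset Equiv
open Pool.Agent.Y998.ST
open Pool.Agent.R134.PB

open Classical in
/-- Nearest neighbour random stirring (the interchange process) on the torus `(ℤ / L)^d`, `d ≥ 1`
arbitrary, started at the identity; `η > 0` arbitrary.

(1) There is `c > 0` such that for all `L ≥ 3`, all `t ≥ 2` and all points `v`: the cycle of `v` at
time `t` has at most `c min((t / log t) ^ ((d + 2) / 4), L) ^ d` points with probability at most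
`η`.

(2) There are `c > 0` and `A` such that for all `L ≥ 3` and all `t ≥ 2` with
`t / log t ≥ A L ^ (4 / (d + 2))` and all points `v`: the cycle of `v` at time `t` has at most
`c L ^ d` points with probability at most `η`.

(3) There are `k` and `A` such that for all `L ≥ 3` and all `t ≥ 2` with
`t / log t ≥ A L ^ (4 / (d + 2))`: the expected fraction of the points in the `k` longest cycles is
at least `1 - η`. -/
theorem result (d : ℕ) (hd : 1 ≤ d) (η : ℝ) (hη : 0 < η) :
    (∃ c : ℝ, 0 < c ∧ ∀ (L : ℕ) [NeZero L], 3 ≤ L → ∀ t : ℝ, 2 ≤ t → ∀ v : Fin d → ZMod L,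
      stirExp (nnRate d L) t (fun g => if (cycleLen g v : ℝ) ≤
        c * min ((t / Real.log t) ^ (((d : ℝ) + 2) / 4)) (L : ℝ) ^ d then (1 : ℝ) else 0) ≤ η) ∧
    (∃ c : ℝ, 0 < c ∧ ∃ A : ℝ, 0 < A ∧ ∀ (L : ℕ) [NeZero L], 3 ≤ L → ∀ t : ℝ, 2 ≤ t →
      A * (L : ℝ) ^ (4 / ((d : ℝ) + 2)) ≤ t / Real.log t → ∀ v : Fin d → ZMod L,
      stirExp (nnRate d L) t (fun g => if (cycleLen g v : ℝ) ≤ c * (L : ℝ) ^ d
        then (1 : ℝ) else 0) ≤ η) ∧
    ∃ k : ℕ, ∃ A : ℝ, 0 < A ∧ ∀ (L : ℕ) [NeZero L], 3 ≤ L → ∀ t : ℝ, 2 ≤ t →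
      A * (L : ℝ) ^ (4 / ((d : ℝ) + 2)) ≤ t / Real.log t →
      1 - η ≤ ∑ i ∈ Finset.range k, stirExp (nnRate d L) t (fun g => pf g i) :=
  ⟨Pool.Agent.Helper47K9.SH.typ3 d hd η hη, Pool.Agent.Helper47K9.SH.giant3 d hd η hη,
    Pool.Agent.Helper47K9.SH.mass3 d hd η hη⟩

end Pool.Agent.Results.MP_6c3d62_pr.MacroscopicBelowMixing
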