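import Pool.Agent.Helper47K9.FD.Fin
import Pool.Agent.Helper47K9.FD.Aff
import Pool.Agent.Helper47K9.FD.Det
import Pool.Agent.Helper47K9.FD.Nil
import Pool.Agent.Helper47K9.FD.Sub
import Pool.Agent.Helper47K9.FD.Sch
import Pool.Agent.Helper47K9.FD.Ene
import Pool.Agent.Helper47K9.FD.Psi
import Pool.Agent.Helper47K9.FD.Ret
import Pool.Agent.Helper47K9.FD.Cap

/-!
# Random stirring at fixed times: the probability that no cycle is contained in a set

`stirExp J t F` (Pool.Agent.Y998.ST.Defs) is the expectation of `F` under random stirring with rates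
`J` at time `t`, started at the identity, `hop J t a b` the transition probability of the random walk
with jump rates `J`, `nnRate d L` are the rates `1` for the nearest neighbours of the torus
`(ℤ / L)^d`, and `tdist` is the `ℓ¹` distance on the torus.
-/

set_option autoImplicit false

namespace Pool.Agent.Results.MP_6c3d62_pr.NoCycleInside

open Finset Equiv
open Pool.Agent.Y998.ST (stirExp nnRate hop)
open Pool.Agent.Helper47K9.FD (tdist)

/-- The probability that no cycle is contained in `D`, i.e. that every cycle has a point outside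
`D`. -/
noncomputable def noneIn {V : Type} [Fintype V] [DecidableEq V] (J : V → V → ℝ) (t : ℝ)
    (D : Finset V) : ℝ :=
  open Classical in stirExp J t (fun g => if ∀ x ∈ D, ∃ y, y ∉ D ∧ g.SameCycle x y then 1 else 0)

theorem noneIn_eq {V : Type} [Fintype V] [DecidableEq V] (J : V → V → ℝ) (t : ℝ)
    (D : Finset V) : noneIn J t D = Pool.Agent.Helper47K9.FD.NC J t D := by
  unfold noneIn Pool.Agent.Helper47K9.FD.NC Pool.Agent.Helper47K9.FD.esc
  congr 1
  funext g
  congr

/-- Random stirring (the interchange process) at a fixed time.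

(1) On every finite set `V` with symmetric rates `J`, for all `t` and all `D`, the probability that
no cycle is contained in `D` is the determinant of `1 - p_t` restricted to `D`, where `p_t` is the
transition matrix of the random walk.

(2) On the torus, `d ≥ 3`: for all `L ≥ 3`, all times `t ≥ 1` and all `D' ⊆ D` other than the whole
torus, the conditional probability that no cycle is contained in `D`, given that no cycle is
contained in `D'`, is at most `(L^d - |D|) / (L^d - |D'|)`, the value for a uniform random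
permutation, and at least this value divided by `(1 + C t^(-d/2))^(|D| - |D'|)`.

(3) On the torus, `d = 2`: for all `L ≥ 3`, all times `t ≥ 0` and all `D` which contain all points at
distance less than `r` from `x`, the conditional probability that no cycle is contained in `D`,
given that no cycle is contained in `D` without `x`, is at most `C t / log (1 + r)`. -/
theorem result :
    (∀ (V : Type) [Fintype V] [DecidableEq V] (J : V → V → ℝ), (∀ x y, J x y = J y x) →
      (∀ x, J x x = 0) → ∀ (t : ℝ) (D : Finset V),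
      noneIn J t D = (Matrix.of fun a b : {a // a ∈ D} =>
        (if a = b then (1 : ℝ) else 0) - hop J t a b).det) ∧
    (∀ d : ℕ, 3 ≤ d → ∃ C : ℝ, 0 < C ∧ ∀ (L : ℕ) [NeZero L], 3 ≤ L → ∀ t : ℝ, 1 ≤ t →
      ∀ D' D : Finset (Fin d → ZMod L), D' ⊆ D → D ≠ Finset.univ →
      0 < noneIn (nnRate d L) t D' ∧
      noneIn (nnRate d L) t D / noneIn (nnRate d L) t D' ≤
        ((L : ℝ) ^ d - D.card) / ((L : ℝ) ^ d - D'.card) ∧
      ((L : ℝ) ^ d - D.card) / ((L : ℝ) ^ d - D'.card) ≤
        (1 + C / Real.sqrt t ^ d) ^ (D.card - D'.card) *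
          (noneIn (nnRate d L) t D / noneIn (nnRate d L) t D')) ∧
    (∃ C : ℝ, 0 < C ∧ ∀ (L : ℕ) [NeZero L], 3 ≤ L → ∀ t : ℝ, 0 ≤ t →
      ∀ (x : Fin 2 → ZMod L) (r : ℕ), 1 ≤ r → ∀ D : Finset (Fin 2 → ZMod L),
      (∀ y, tdist x y < r → y ∈ D) →
      noneIn (nnRate 2 L) t D ≤
        C * t / Real.log (1 + r) * noneIn (nnRate 2 L) t (D.erase x)) := by
  have hDET := Pool.Agent.Helper47K9.FD.det (Pool.Agent.Helper47K9.FD.ddet
    Pool.Agent.Helper47K9.FD.aff)
  have hNIL := Pool.Agent.Helper47K9.FD.nil
  have hSYM := Pool.Agent.Helper47K9.FD.sym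
  have hENE := Pool.Agent.Helper47K9.FD.ene hSYM
  have hPSI := Pool.Agent.Helper47K9.FD.psi hSYM hENE
  have hSCH := Pool.Agent.Helper47K9.FD.sch
  have hRET := Pool.Agent.Helper47K9.FD.ret
  have hCAP := Pool.Agent.Helper47K9.FD.cap
  refine ⟨?_, ?_, ?_⟩
  · intro V _ _ J hs h0 t D
    rw [noneIn_eq]
    exact Pool.Agent.Helper47K9.FD.minor hDET hNIL Pool.Agent.Helper47K9.FD.sub hs h0 t D
  · intro d hd
    obtain ⟨C, hC, h⟩ := Pool.Agent.Helper47K9.FD.meet3 hDET hNIL hSCH hSYM hENE hPSI hRET d hd
    refine ⟨C, hC, fun L _ hL t ht D' D hDD hD => ?_⟩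
    have hS : (Dᶜ).Nonempty := by
      rw [Finset.nonempty_iff_ne_empty]
      intro h1
      exact hD (by rwa [Finset.compl_eq_empty_iff] at h1)
    have hcard : ∀ E : Finset (Fin d → ZMod L), ((Eᶜ).card : ℝ) = (L : ℝ) ^ d - E.card := by
      intro E
      rw [Finset.card_compl, Nat.cast_sub (Finset.card_le_univ E), Fintype.card_fun, ZMod.card,
        Fintype.card_fin]
      push_cast
      rfl
    have hMT : ∀ E : Finset (Fin d → ZMod L),
        Pool.Agent.Helper47K9.FD.MT (nnRate d L) t Eᶜ = noneIn (nnRate d L) t E := by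
      intro E
      rw [Pool.Agent.Helper47K9.FD.MT_eq, compl_compl, noneIn_eq]
    have h1 := h L hL t ht Dᶜ D'ᶜ hS (Finset.compl_subset_compl.2 hDD)
    rw [hMT, hMT, hcard, hcard] at h1
    have h2 : (D'ᶜ).card - (Dᶜ).card = D.card - D'.card := by
      have e1 := Finset.card_add_card_compl D
      have e2 := Finset.card_add_card_compl D'
      have e3 := Finset.card_le_card hDD
      omega
    rw [h2] at h1
    exact h1
  · obtain ⟨C, hC, h⟩ := Pool.Agent.Helper47K9.FD.rec2 hDET hNIL hSCH hSYM hENE hCAP
    refine ⟨C, hC, fun L _ hL t ht x r hr D hD => ?_⟩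
    have h1 := h L hL t ht x r hr D hD
    have hx : x ∈ D := by
      refine hD x ?_
      have : tdist x x = 0 := by unfold tdist; simp
      omega
    rw [Pool.Agent.Helper47K9.FD.AV_eq, Pool.Agent.Helper47K9.FD.IN_eq _ _ _ _ hx] at h1
    rw [noneIn_eq, noneIn_eq]
    linarith

end Pool.Agent.Results.MP_6c3d62_pr.NoCycleInside
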