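import Pool.Agent.Helper47K9.SC.All
import Pool.Agent.Helper47K9.SC.Asy

/-!
# Nearest neighbour stirring: the short cycles are counted by the heat kernel

`stirExp J t F` (Pool.Agent.Y998.ST.Defs) is the expectation of `F` under random stirring with rates
`J` at time `t`, started at the identity, `nnRate d L` are the rates `1` for the nearest neighbours
of the torus `(ℤ / L)^d`, `hop J s v v` is the probability that the random walk with jump rates `J`
is at its starting point `v` at time `s`, `cycleLen g v` is the length of the cycle of `g` through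
`v`, and `g.partition.parts.count ℓ` is the number of cycles of length `ℓ` of `g` (fixed points
included for `ℓ = 1`).
-/

set_option autoImplicit false

namespace Pool.Agent.Results.MP_6c3d62_pr.ShortCycles

open Finset Equiv
open Pool.Agent.Y998.ST
open Pool.Agent.Helper47K9.SC (one_main lln fmA tup vl as1 lowA hop_diag rr)

/-- The return probability at time `ℓ t` is of order `L ^ (-d) + t ^ (-d/2)`. -/
theorem ret_low (d : ℕ) (hd : 1 ≤ d) (ℓ : ℕ) (hℓ : 1 ≤ ℓ) : ∃ c : ℝ, 0 < c ∧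
    ∀ (L : ℕ) [NeZero L], 3 ≤ L → ∀ t : ℝ, 2 ≤ t → ∀ v : Fin d → ZMod L,
    c * (1 / (L : ℝ) ^ d + 1 / Real.sqrt t ^ d) ≤ hop (nnRate d L) (ℓ * t) v v := by
  obtain ⟨c, hc, h⟩ := lowA d hd
  have hℓr : (1 : ℝ) ≤ ℓ := by exact_mod_cast hℓ
  have hs1 : 1 ≤ Real.sqrt ℓ := by
    rw [show (1 : ℝ) = Real.sqrt 1 by simp]
    exact Real.sqrt_le_sqrt hℓr
  have hs0 : 0 < Real.sqrt ℓ := by linarith
  refine ⟨c / Real.sqrt ℓ ^ d, by positivity, fun L _ hL t ht v => ?_⟩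
  have hL0 : (0 : ℝ) < L := by exact_mod_cast (show 0 < L by omega)
  have ht0 : 0 < t := by linarith
  have hst : 0 < Real.sqrt t := Real.sqrt_pos.2 ht0
  rw [hop_diag hL]
  have h1 := h L hL (ℓ * t) (by nlinarith)
  refine le_trans ?_ h1
  unfold rr
  rw [Real.sqrt_mul (by linarith), mul_pow]
  have h2 : (1 : ℝ) ≤ Real.sqrt ℓ ^ d := one_le_pow₀ hs1
  have h3 : c / Real.sqrt ℓ ^ d * (1 / (L : ℝ) ^ d) ≤ c * (1 / (L : ℝ) ^ d) := by
    refine mul_le_mul_of_nonneg_right ?_ (by positivity)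
    exact div_le_self hc.le h2
  have h4 : c / Real.sqrt ℓ ^ d * (1 / Real.sqrt t ^ d) =
      c * (1 / (Real.sqrt ℓ ^ d * Real.sqrt t ^ d)) := by field_simp
  rw [mul_add, mul_add, h4]
  linarith

/-- Nearest neighbour random stirring (the interchange process) on the torus `(ℤ / L)^d`, `d ≥ 1`
arbitrary, started at the identity; `ℓ ≥ 1` a fixed length, `v` any point, and `p` the probability
that the random walk with jump rate `1` to every neighbour is back at its starting point at time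
`ℓ t`.
(1) With constants depending only on `d` and `ℓ`, for all `L ≥ 3` and all times `t ≥ 2`: `p` is at
least of order `L ^ (-d) + t ^ (-d/2)`; the probability that the cycle of `v` has length `ℓ` is
`p + O((log t) ^ K (L ^ (-d) + t ^ (-d/2)) ^ 2)`; and with the mean number
`λ = L ^ d p / ℓ` the number `N` of cycles of length `ℓ` satisfies
`E (N - λ) ^ 2 = λ + O((log t) ^ K (L ^ (-d) + t ^ (-d/2)) (L ^ d (L ^ (-d) + t ^ (-d/2))) ^ 2)`.
(2) For `1 ≪ t ≪ L ^ 2` the probability that the cycle of `v` has length `ℓ` is asymptotic to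
`(4 π ℓ t) ^ (-d/2)`, and `N` is asymptotic to `L ^ d ℓ⁻¹ (4 π ℓ t) ^ (-d/2)` in `L²`. -/
theorem result (d : ℕ) (hd : 1 ≤ d) (ℓ : ℕ) (hℓ : 1 ≤ ℓ) :
    (∃ (c A : ℝ) (K : ℕ), 0 < c ∧ 0 < A ∧ ∀ (L : ℕ) [NeZero L], 3 ≤ L → ∀ t : ℝ, 2 ≤ t →
      ∀ v : Fin d → ZMod L,
      c * (1 / (L : ℝ) ^ d + 1 / Real.sqrt t ^ d) ≤ hop (nnRate d L) (ℓ * t) v v ∧
      |stirExp (nnRate d L) t (fun g => if cycleLen g v = ℓ then 1 else 0) -
        hop (nnRate d L) (ℓ * t) v v| ≤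
        A * Real.log t ^ K * (1 / (L : ℝ) ^ d + 1 / Real.sqrt t ^ d) ^ 2 ∧
      |stirExp (nnRate d L) t (fun g => ((g.partition.parts.count ℓ : ℝ) -
          (L : ℝ) ^ d * hop (nnRate d L) (ℓ * t) v v / ℓ) ^ 2) -
        (L : ℝ) ^ d * hop (nnRate d L) (ℓ * t) v v / ℓ| ≤
        A * Real.log t ^ K * (1 / (L : ℝ) ^ d + 1 / Real.sqrt t ^ d) *
          ((L : ℝ) ^ d * (1 / (L : ℝ) ^ d + 1 / Real.sqrt t ^ d)) ^ 2) ∧
    ∀ ε : ℝ, 0 < ε → ∃ T : ℝ, 0 < T ∧ ∀ (L : ℕ) [NeZero L], 3 ≤ L → ∀ t : ℝ, T ≤ t →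
      T * t ≤ (L : ℝ) ^ 2 →
      (∀ v : Fin d → ZMod L, |Real.sqrt (4 * Real.pi * (ℓ * t)) ^ d *
        stirExp (nnRate d L) t (fun g => if cycleLen g v = ℓ then 1 else 0) - 1| ≤ ε) ∧
      stirExp (nnRate d L) t (fun g => (ℓ * Real.sqrt (4 * Real.pi * (ℓ * t)) ^ d / (L : ℝ) ^ d *
        (g.partition.parts.count ℓ : ℝ) - 1) ^ 2) ≤ ε := by
  constructor
  · obtain ⟨c, hc, h1⟩ := ret_low d hd ℓ hℓ
    obtain ⟨A, K, hA, h2⟩ := one_main fmA tup vl d hd ℓ hℓ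
    exact ⟨c, A, K, hc, hA, fun L _ hL t ht v =>
      ⟨h1 L hL t ht v, (h2 L hL t ht v).1, (h2 L hL t ht v).2⟩⟩
  · intro ε hε
    obtain ⟨T, hT, h⟩ := lln fmA tup vl as1 d hd ℓ hℓ ε hε
    exact ⟨T, by linarith, fun L _ hL t ht htL =>
      ⟨fun v => (h L hL t ht htL v).1, (h L hL t ht htL 0).2⟩⟩

end Pool.Agent.Results.MP_6c3d62_pr.ShortCycles
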