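import Pool.Agent.Helper95K9.SM.Uco
import Pool.Agent.Helper95K9.SM.Tow
import Pool.Agent.Helper95K9.SM.Avg
import Pool.Agent.Helper95K9.SM.Sep
import Pool.Agent.Helper95K9.SM.Abs

/-!
# Nearest neighbour stirring: the permutation induced on any given points is uniform at times of
# order `L ^ (4 / (d + 2)) log L`

`stirExp J t F` (Pool.Agent.Y998.ST.Defs) is the expectation of `F` under random stirring with rates
`J` at time `t`, started at the identity, and `nnRate d L` are the rates `1` for the nearest
neighbours of the torus `(ℤ / L)^d`. `torusDist` and `IsInduced g a π` are those of the result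
`LocalPoissonDirichlet` of the problem `MP_b817cf_pr`: the `ℓ¹` distance, and the statement that `g`
induces the permutation `π` of the indices on the points `a`: the first of these points that one meets
when going from `a i` along its cycle is `a (π i)`.
-/

set_option autoImplicit false

namespace Pool.Agent.Results.MP_6c3d62_pr.UniformCyclicOrder

open Finset Equiv
open Pool.Agent.Y998.ST (stirExp nnRate)
open Pool.Agent.Results.MP_b817cf_pr.LocalPoissonDirichlet (torusDist IsInduced)

open Classical in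
/-- Nearest neighbour random stirring (the interchange process) on the torus `(ℤ / L)^d`, `d ≥ 1`
arbitrary, started at the identity, `k ≥ 1` and `ε > 0`.
(1) There are `T` and `κ > 0` such that for all `L ≥ 3`, all times `t ≥ T` and any `k` different
points at mutual distance at most `κ (t / log t) ^ ((d + 2) / 4)`, the law of the permutation induced
on these points is uniform on the `k!` permutations up to `ε` in `ℓ¹`.
(2) There is `A` such that for all `L ≥ A`, all times `t ≥ 2` with
`t / log t ≥ A L ^ (4 / (d + 2))` and any `k` different points of the torus the same holds. -/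
theorem result (d : ℕ) (hd : 1 ≤ d) (k : ℕ) (hk : 1 ≤ k) (ε : ℝ) (hε : 0 < ε) :
    (∃ T : ℝ, 0 < T ∧ ∃ κ : ℝ, 0 < κ ∧ ∀ (L : ℕ) [NeZero L], 3 ≤ L → ∀ t : ℝ, T ≤ t →
      ∀ a : Fin k → Fin d → ZMod L, Function.Injective a →
      (∀ i j, (torusDist (a i) (a j) : ℝ) ≤ κ * (t / Real.log t) ^ (((d : ℝ) + 2) / 4)) →
      ∑ π : Perm (Fin k), |stirExp (nnRate d L) t (fun g => if IsInduced g a π then 1 else 0) -
        1 / (k.factorial : ℝ)| ≤ ε) ∧
    ∃ A : ℝ, 0 < A ∧ ∀ (L : ℕ) [NeZero L], A ≤ L → ∀ t : ℝ, 2 ≤ t →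
      A * (L : ℝ) ^ (4 / ((d : ℝ) + 2)) ≤ t / Real.log t →
      ∀ a : Fin k → Fin d → ZMod L, Function.Injective a →
      ∑ π : Perm (Fin k), |stirExp (nnRate d L) t (fun g => if IsInduced g a π then 1 else 0) -
        1 / (k.factorial : ℝ)| ≤ ε :=
  ⟨Pool.Agent.Helper95K9.SM.uco_loc Pool.Agent.Helper95K9.SM.tow Pool.Agent.Helper95K9.SM.rmul
    Pool.Agent.Helper95K9.SM.avg Pool.Agent.Helper95K9.SM.sep Pool.Agent.Helper95K9.SM.two
    Pool.Agent.Helper95K9.SM.nob Pool.Agent.Helper95K9.SM.abs_ d hd k hk ε hε,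
  Pool.Agent.Helper95K9.SM.uco_glo Pool.Agent.Helper95K9.SM.tow Pool.Agent.Helper95K9.SM.rmul
    Pool.Agent.Helper95K9.SM.avg Pool.Agent.Helper95K9.SM.sep Pool.Agent.Helper95K9.SM.two
    Pool.Agent.Helper95K9.SM.nob Pool.Agent.Helper95K9.SM.abs_ d hd k ε hε⟩

end Pool.Agent.Results.MP_6c3d62_pr.UniformCyclicOrder
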